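import Pool.Agent.Q44.MX.Stm

/-!
# Project MX of helper44, job TAIL: the probability of a large kernel
-/

set_option autoImplicit false

namespace Q252.MX

open Finset Module Q44.MX
open scoped Classical

theorem card_K {P V : Type} [Fintype P] [LinearOrder P] [AddCommGroup V] [Module (ZMod 2) V]
    [Finite V] (D : Md P V) (a : Sym2 P → ZMod 2) :
    Nat.card (D.K a) = 2 ^ finrank (ZMod 2) (D.K a) := by
  have h := Module.natCard_eq_pow_finrank (K := ZMod 2) (V := D.K a)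
  rw [h, Nat.card_eq_fintype_card, ZMod.card]

theorem t_TAIL (h : S_MOM) : S_TAIL := by
  intro V _ _ _ ω hω
  obtain ⟨C₀, hC⟩ := h V ω hω
  refine ⟨C₀ + 9, fun S c hc hS P _ _ D hD hDω k hk => ?_⟩
  have hc4 : 0 < c ∧ c ≤ 4 := by
    rcases hc with rfl | ⟨rfl, _⟩ | ⟨rfl, _⟩ <;> norm_num
  set j := k / c with hj
  set t := k % c with ht
  have hkj : k = c * j + t := (Nat.div_add_mod k c).symm
  have htc : t < c := Nat.mod_lt k hc4.1
  have ht3 : t ≤ 3 := by omega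
  have hjk : j ≤ k := Nat.div_le_self k c
  have h1 := hC S c hc hS P D hD hDω j (fun X hX => by
    refine le_trans ?_ (hk X hX)
    exact Nat.mul_le_mul (by omega) (by omega))
  set F := univ.filter fun a : Sym2 P → ZMod 2 => k ≤ finrank (ZMod 2) (D.K a) with hF
  have h2 : F.card * 2 ^ (k * j) ≤ ∑ a : Sym2 P → ZMod 2, Nat.card (D.K a) ^ j := by
    calc F.card * 2 ^ (k * j) = ∑ _a ∈ F, 2 ^ (k * j) := by rw [sum_const, smul_eq_mul]
      _ ≤ ∑ a ∈ F, Nat.card (D.K a) ^ j := by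
          refine sum_le_sum fun a ha => ?_
          rw [card_K, ← pow_mul]
          exact Nat.pow_le_pow_right (by norm_num)
            (Nat.mul_le_mul_right j (mem_filter.1 ha).2)
      _ ≤ ∑ a : Sym2 P → ZMod 2, Nat.card (D.K a) ^ j :=
          sum_le_sum_of_subset (subset_univ F)
  have h3 : (F.card * 2 ^ (k * j)) ^ 2 ≤
      (2 ^ Fintype.card (Sym2 P)) ^ 2 * 2 ^ (c * j ^ 2 + C₀ * (j + 1)) :=
    (Nat.pow_le_pow_left h2 2).trans h1
  have hexp : k ^ 2 / c + (c * j ^ 2 + C₀ * (j + 1)) ≤ (C₀ + 9) * (k + 1) + 2 * (k * j) := by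
    have h4 : k ^ 2 / c ≤ c * j ^ 2 + 2 * j * t + t ^ 2 := by
      apply Nat.div_le_of_le_mul
      have h5 : t ^ 2 ≤ c * t ^ 2 := Nat.le_mul_of_pos_left _ hc4.1
      calc k ^ 2 = c * (c * j ^ 2 + 2 * j * t) + t ^ 2 := by
            rw [hkj]
            ring
        _ ≤ c * (c * j ^ 2 + 2 * j * t) + c * t ^ 2 := by omega
        _ = c * (c * j ^ 2 + 2 * j * t + t ^ 2) := by ring
    have h6 : t ^ 2 ≤ 9 := by
      calc t ^ 2 ≤ 3 ^ 2 := Nat.pow_le_pow_left ht3 2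
        _ = 9 := by norm_num
    have h7 : 2 * (k * j) = 2 * (c * j ^ 2) + 2 * j * t := by
      conv_lhs => rw [hkj]
      ring
    have h8 : C₀ * (j + 1) ≤ C₀ * (k + 1) := Nat.mul_le_mul_left _ (by omega)
    have h9 : (C₀ + 9) * (k + 1) = C₀ * (k + 1) + 9 * k + 9 := by ring
    omega
  have h4 : F.card ^ 2 * 2 ^ (k ^ 2 / c) * 2 ^ (2 * (k * j)) ≤
      (2 ^ Fintype.card (Sym2 P)) ^ 2 * 2 ^ ((C₀ + 9) * (k + 1)) * 2 ^ (2 * (k * j)) := by
    calc F.card ^ 2 * 2 ^ (k ^ 2 / c) * 2 ^ (2 * (k * j)) =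
        (F.card * 2 ^ (k * j)) ^ 2 * 2 ^ (k ^ 2 / c) := by ring
      _ ≤ (2 ^ Fintype.card (Sym2 P)) ^ 2 * 2 ^ (c * j ^ 2 + C₀ * (j + 1)) * 2 ^ (k ^ 2 / c) :=
          Nat.mul_le_mul_right _ h3
      _ = (2 ^ Fintype.card (Sym2 P)) ^ 2 * 2 ^ (k ^ 2 / c + (c * j ^ 2 + C₀ * (j + 1))) := by
          rw [pow_add 2 (k ^ 2 / c)]
          ring
      _ ≤ (2 ^ Fintype.card (Sym2 P)) ^ 2 * 2 ^ ((C₀ + 9) * (k + 1) + 2 * (k * j)) :=
          Nat.mul_le_mul_left _ (Nat.pow_le_pow_right (by norm_num) hexp)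
      _ = (2 ^ Fintype.card (Sym2 P)) ^ 2 * 2 ^ ((C₀ + 9) * (k + 1)) * 2 ^ (2 * (k * j)) := by
          rw [pow_add 2 ((C₀ + 9) * (k + 1))]
          ring
  exact Nat.le_of_mul_le_mul_right h4 (by positivity)

end Q252.MX
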