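import Pool.Agent.Q44.MX.StmB

/-!
# Project MX of helper44, job TAILB: the tail for a restricted block
-/

set_option autoImplicit false

namespace Q252.MX

open Finset Module Q44.MX
open Pool.Agent.Y703.CQ (prs ext)
open Q44.JQ (Dj Bk Sel)
open Q44.LD (sb ra)
open scoped Classical

theorem mdl_ok {s V U ι : Type} [AddCommGroup V] [Module (ZMod 2) V] {D : Dj s V} (b : Bk s U ι)
    (B : ι → Prop) (i₀ : ι) (hD : Pl D.ω) [Fintype s] (hS : D.Sym) : (mdl D b B i₀).Ok where
  alt := hD.alt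
  nd := hD.nd
  adj := fun p x y => hS.adj (b.hJ p) x y

theorem rk_le {s V U ι : Type} [AddCommGroup V] [Module (ZMod 2) V] [Finite V] [Fintype s]
    [Fintype U] [Fintype ι] [LinearOrder ι] (D : Dj s V) (b : Bk s U ι) (A : U → Prop)
    (B : ι → Prop) (hB : ∀ i, ¬ B i) (α : prs (univ : Finset ι) → ZMod 2)
    (h2 : finrank (ZMod 2) V = 2) : rk D b A B α ≤ 2 * (Fintype.card s + Fintype.card U) := by
  unfold rk
  refine (Submodule.finrank_le _).trans ?_
  rw [Module.finrank_prod, Module.finrank_pi_fintype, Module.finrank_pi_fintype]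
  simp only [h2, sum_const, card_univ, smul_eq_mul]
  have h3 : Fintype.card ({u // A u} ⊕ {i // B i}) ≤ Fintype.card U := by
    rw [Fintype.card_sum]
    have h4 : Fintype.card {i // B i} = 0 := by
      rw [Fintype.card_eq_zero_iff]
      exact ⟨fun i => hB i.1 i.2⟩
    rw [h4, add_zero]
    exact Fintype.card_subtype_le _
  omega

theorem t_TAILB (h1 : S_UNIF) (h2 : S_TAIL) : S_TAILB := by
  intro V _ _ _ ω hω
  obtain ⟨C, hC⟩ := h2 V ω hω
  refine ⟨C + 1, fun S c hc hS s U ι _ _ _ _ D b A B hD hDω k hk => ?_⟩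
  have hdim : finrank (ZMod 2) V = 2 := hω.dim
  by_cases hB : ∃ i, B i
  · obtain ⟨i₀, hi₀⟩ := hB
    have hu := h1 s V U ι D b A B i₀ hi₀ k
    rw [hdim] at hu
    have hPl : Pl D.ω := by
      rw [hDω]
      exact hω
    have ht := hC S c hc hS {i : ι // B i ∧ i ≠ i₀} (mdl D b B i₀) (mdl_ok b B i₀ hPl hD) hDω k
      (fun X hX => by
        have h3 := hk X hX
        have h4 : (univ.filter fun i => B i ∧ ∃ e : ZMod 2, D.T (b.hJ i) = X + e • 1).card ≤
            (univ.filter fun p : {i : ι // B i ∧ i ≠ i₀} =>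
              ∃ e : ZMod 2, (mdl D b B i₀).T p = X + e • 1).card + 1 := by
          have h5 : (univ.filter fun i => B i ∧ ∃ e : ZMod 2, D.T (b.hJ i) = X + e • 1) ⊆
              insert i₀ ((univ.filter fun p : {i : ι // B i ∧ i ≠ i₀} =>
                ∃ e : ZMod 2, (mdl D b B i₀).T p = X + e • 1).map
                  (Function.Embedding.subtype _)) := by
            intro i hi
            obtain ⟨hi1, hi2⟩ := (mem_filter.1 hi).2
            rw [mem_insert]
            by_cases hii : i = i₀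
            · exact Or.inl hii
            · refine Or.inr (mem_map.2 ⟨⟨i, hi1, hii⟩, ?_, rfl⟩)
              exact mem_filter.2 ⟨mem_univ _, hi2⟩
          refine (card_le_card h5).trans ((card_insert_le _ _).trans ?_)
          rw [card_map]
        have h6 : (C + 1) * (k + 1) = C * (k + 1) + k + 1 := by ring
        omega)
    set a1 := (univ.filter fun α : prs (univ : Finset ι) → ZMod 2 =>
      k + 2 * (Fintype.card s + Fintype.card U + 1) ≤ rk D b A B α).card with ha1
    set a2 := (univ.filter fun a : Sym2 {i : ι // B i ∧ i ≠ i₀} → ZMod 2 =>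
        k ≤ finrank (ZMod 2) ((mdl D b B i₀).K a)).card with ha2
    set N := Fintype.card (Sym2 {i : ι // B i ∧ i ≠ i₀}) with hN
    set M := (prs (univ : Finset ι)).card with hM
    have h7 : (a1 * 2 ^ N) ^ 2 ≤ (2 ^ M * a2) ^ 2 := Nat.pow_le_pow_left hu 2
    have h8 : a1 ^ 2 * 2 ^ (k ^ 2 / c) * (2 ^ N) ^ 2 ≤
        (2 ^ M) ^ 2 * 2 ^ ((C + 1) * (k + 1)) * (2 ^ N) ^ 2 := by
      calc a1 ^ 2 * 2 ^ (k ^ 2 / c) * (2 ^ N) ^ 2 = (a1 * 2 ^ N) ^ 2 * 2 ^ (k ^ 2 / c) := by ring
        _ ≤ (2 ^ M * a2) ^ 2 * 2 ^ (k ^ 2 / c) := Nat.mul_le_mul_right _ h7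
        _ = (2 ^ M) ^ 2 * (a2 ^ 2 * 2 ^ (k ^ 2 / c)) := by ring
        _ ≤ (2 ^ M) ^ 2 * ((2 ^ N) ^ 2 * 2 ^ (C * (k + 1))) := Nat.mul_le_mul_left _ ht
        _ = (2 ^ M) ^ 2 * 2 ^ (C * (k + 1)) * (2 ^ N) ^ 2 := by ring
        _ ≤ (2 ^ M) ^ 2 * 2 ^ ((C + 1) * (k + 1)) * (2 ^ N) ^ 2 := by
            apply Nat.mul_le_mul_right
            apply Nat.mul_le_mul_left
            exact Nat.pow_le_pow_right (by norm_num) (Nat.mul_le_mul_right _ (by omega))
    exact Nat.le_of_mul_le_mul_right h8 (by positivity)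
  · push Not at hB
    have h3 : (univ.filter fun α : prs (univ : Finset ι) → ZMod 2 =>
        k + 2 * (Fintype.card s + Fintype.card U + 1) ≤ rk D b A B α) = ∅ := by
      rw [filter_eq_empty_iff]
      intro α _ h4
      have h5 := rk_le D b A B hB α hdim
      omega
    rw [h3, card_empty]
    simp

end Q252.MX
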