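import Pool.Agent.Q44.MX.StmB

/-!
# Project MX of helper44, job UBP: almost all symbols
-/

set_option autoImplicit false

namespace Q252.MX

open Finset Module Q44.MX Filter
open Pool.Agent.Y703.CQ (prs ext)
open Q44.JQ (Dj Bk Sel)
open Q44.LD (sb ra)
open scoped Classical

theorem ev_small (ε : ℝ) (hε : 0 < ε) :
    ∀ᶠ n : ℕ in atTop, (3 * (n : ℝ) + 1) * (2 : ℝ) ^ (-(ε / 2) * n) ≤ ε := by
  have h0 : (0 : ℝ) < (2 : ℝ) ^ (-(ε / 2)) := Real.rpow_pos_of_pos (by norm_num) _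
  have h1 : |(2 : ℝ) ^ (-(ε / 2))| < 1 := by
    rw [abs_of_pos h0]
    exact Real.rpow_lt_one_of_one_lt_of_neg (by norm_num) (by linarith)
  have h2 := tendsto_pow_const_mul_const_pow_of_abs_lt_one 1 h1
  have h3 := tendsto_pow_atTop_nhds_zero_of_abs_lt_one h1
  have h4 := (h2.const_mul 3).add h3
  rw [mul_zero, add_zero] at h4
  filter_upwards [h4.eventually_lt_const hε] with n hn
  have h5 : (2 : ℝ) ^ (-(ε / 2) * n) = ((2 : ℝ) ^ (-(ε / 2))) ^ n := by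
    rw [Real.rpow_mul (by norm_num), Real.rpow_natCast]
  rw [h5]
  refine le_of_eq_of_le ?_ hn.le
  ring

theorem t_UBP (h : S_UB) : S_UBP := by
  intro s V _ _ _ _ D hPl hSym hadj ε hε
  obtain ⟨δ, hδ, n₀, hn₀⟩ := h s V D hPl hSym hadj (ε / 2) (by positivity)
  obtain ⟨n₁, hn₁⟩ := eventually_atTop.1 (ev_small ε hε)
  refine ⟨δ, hδ, max n₀ n₁, fun U ι _ _ _ b hn hU hlab => ?_⟩
  set n := Fintype.card ι with hn'
  have hUB := hn₀ U ι b ((le_max_left _ _).trans hn) hU hlab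
  set M := (prs (univ : Finset ι)).card with hM
  -- the bound for one k
  have hone : ∀ k : ℕ, k ^ 2 ≤ 9 * n →
      ((univ.filter fun α : prs (univ : Finset ι) → ZMod 2 =>
        (2 : ℝ) ^ (ε * n) *
          ((2 : ℝ) ^ ((n : ℝ) - (k : ℝ) ^ 2 / 2) + (2 : ℝ) ^ (((n : ℝ) - (k : ℝ) ^ 2 / 2) / 4)) <
          ((univ.filter fun σ : U ⊕ ι → ZMod 2 => k ≤ rkB D b σ α).card : ℝ)).card : ℝ) ≤
        2 ^ M * (2 : ℝ) ^ (-(ε / 2) * n) := by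
    intro k hk
    have h1 := hUB k hk
    set Q : ℝ := (2 : ℝ) ^ ((n : ℝ) - (k : ℝ) ^ 2 / 2) +
      (2 : ℝ) ^ (((n : ℝ) - (k : ℝ) ^ 2 / 2) / 4) with hQ
    have hQ0 : 0 < Q := by positivity
    set F := univ.filter fun α : prs (univ : Finset ι) → ZMod 2 =>
        (2 : ℝ) ^ (ε * n) * Q <
          ((univ.filter fun σ : U ⊕ ι → ZMod 2 => k ≤ rkB D b σ α).card : ℝ) with hF
    have h2 : (F.card : ℝ) * ((2 : ℝ) ^ (ε * n) * Q) ≤
        ∑ α : prs (univ : Finset ι) → ZMod 2,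
          ((univ.filter fun σ : U ⊕ ι → ZMod 2 => k ≤ rkB D b σ α).card : ℝ) := by
      calc (F.card : ℝ) * ((2 : ℝ) ^ (ε * n) * Q) = ∑ _α ∈ F, (2 : ℝ) ^ (ε * n) * Q := by
            rw [sum_const, nsmul_eq_mul]
        _ ≤ ∑ α ∈ F, ((univ.filter fun σ : U ⊕ ι → ZMod 2 => k ≤ rkB D b σ α).card : ℝ) :=
            sum_le_sum fun α hα => (mem_filter.1 hα).2.le
        _ ≤ _ := sum_le_sum_of_subset_of_nonneg (subset_univ F) fun _ _ _ => Nat.cast_nonneg _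
    have h3 : (F.card : ℝ) * ((2 : ℝ) ^ (ε * n) * Q) ≤
        2 ^ M * (2 : ℝ) ^ (ε / 2 * n) * Q := h2.trans h1
    have h4 : (2 : ℝ) ^ (ε / 2 * n) = (2 : ℝ) ^ (-(ε / 2) * n) * (2 : ℝ) ^ (ε * n) := by
      rw [← Real.rpow_add (by norm_num)]
      congr 1
      ring
    rw [h4] at h3
    have h5 : 0 < (2 : ℝ) ^ (ε * n) * Q := by positivity
    refine le_of_mul_le_mul_right (h3.trans (le_of_eq ?_)) h5
    ring
  have hsub : (univ.filter fun α : prs (univ : Finset ι) → ZMod 2 => ∃ k : ℕ, k ^ 2 ≤ 9 * n ∧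
        (2 : ℝ) ^ (ε * n) *
          ((2 : ℝ) ^ ((n : ℝ) - (k : ℝ) ^ 2 / 2) + (2 : ℝ) ^ (((n : ℝ) - (k : ℝ) ^ 2 / 2) / 4)) <
          ((univ.filter fun σ : U ⊕ ι → ZMod 2 => k ≤ rkB D b σ α).card : ℝ)) ⊆
      ((range (3 * n + 1)).filter fun k => k ^ 2 ≤ 9 * n).biUnion fun k =>
        univ.filter fun α : prs (univ : Finset ι) → ZMod 2 =>
          (2 : ℝ) ^ (ε * n) *
            ((2 : ℝ) ^ ((n : ℝ) - (k : ℝ) ^ 2 / 2) + (2 : ℝ) ^ (((n : ℝ) - (k : ℝ) ^ 2 / 2) / 4)) <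
            ((univ.filter fun σ : U ⊕ ι → ZMod 2 => k ≤ rkB D b σ α).card : ℝ) := by
    intro α hα
    obtain ⟨k, hk, hk'⟩ := (mem_filter.1 hα).2
    rw [mem_biUnion]
    refine ⟨k, mem_filter.2 ⟨mem_range.2 ?_, hk⟩, mem_filter.2 ⟨mem_univ _, hk'⟩⟩
    by_contra hcon
    push Not at hcon
    have h1 : (3 * n + 1) ^ 2 ≤ k ^ 2 := Nat.pow_le_pow_left hcon 2
    have h2 : n ≤ n ^ 2 := Nat.le_self_pow (by norm_num) n
    have h3 : (3 * n + 1) ^ 2 = 9 * n ^ 2 + 6 * n + 1 := by ring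
    omega
  have h6 := (card_le_card hsub).trans card_biUnion_le
  have h7 : (∑ k ∈ (range (3 * n + 1)).filter (fun k => k ^ 2 ≤ 9 * n),
      ((univ.filter fun α : prs (univ : Finset ι) → ZMod 2 =>
          (2 : ℝ) ^ (ε * n) *
            ((2 : ℝ) ^ ((n : ℝ) - (k : ℝ) ^ 2 / 2) + (2 : ℝ) ^ (((n : ℝ) - (k : ℝ) ^ 2 / 2) / 4)) <
            ((univ.filter fun σ : U ⊕ ι → ZMod 2 => k ≤ rkB D b σ α).card : ℝ)).card : ℝ)) ≤
      (3 * n + 1) * (2 ^ M * (2 : ℝ) ^ (-(ε / 2) * n)) := by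
    refine (sum_le_card_nsmul _ _ _ fun k hk => hone k (mem_filter.1 hk).2).trans ?_
    rw [nsmul_eq_mul]
    apply mul_le_mul_of_nonneg_right _ (by positivity)
    have h8 := card_filter_le (range (3 * n + 1)) (fun k => k ^ 2 ≤ 9 * n)
    rw [card_range] at h8
    exact_mod_cast h8
  have h9 : ((univ.filter fun α : prs (univ : Finset ι) → ZMod 2 => ∃ k : ℕ, k ^ 2 ≤ 9 * n ∧
        (2 : ℝ) ^ (ε * n) *
          ((2 : ℝ) ^ ((n : ℝ) - (k : ℝ) ^ 2 / 2) + (2 : ℝ) ^ (((n : ℝ) - (k : ℝ) ^ 2 / 2) / 4)) <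
          ((univ.filter fun σ : U ⊕ ι → ZMod 2 => k ≤ rkB D b σ α).card : ℝ)).card : ℝ) ≤
      (3 * n + 1) * (2 ^ M * (2 : ℝ) ^ (-(ε / 2) * n)) := by
    refine le_trans ?_ h7
    exact_mod_cast h6
  refine h9.trans ?_
  have h10 := hn₁ n ((le_max_right _ _).trans hn)
  calc (3 * (n : ℝ) + 1) * (2 ^ M * (2 : ℝ) ^ (-(ε / 2) * n)) =
      ((3 * (n : ℝ) + 1) * (2 : ℝ) ^ (-(ε / 2) * n)) * 2 ^ M := by ring
    _ ≤ ε * 2 ^ M := mul_le_mul_of_nonneg_right h10 (by positivity)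

end Q252.MX
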